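import Pool.Agent.R550.PS.Final

/-!
# Deciding irreducibility of consistent path systems is coNP-hard
-/

namespace Pool.Agent.Results.MP_a08d7f_lc.IrreducibilityHard

open Pool.Agent.NPC Pool.Agent.R550.PS

/-- (1) Deciding whether a given consistent path system has a reduction is NP-hard: every language
`L` in `NP` has a polynomial-time computable map `f` to consistent path systems, such that `x` is
in `L` iff `f x` has a reduction. (2) If some polynomial-time algorithm decides, for every
consistent path system, whether it is irreducible, then `P = NP`. -/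
theorem result :
    (∀ L : Set (List Bool), InNP L → ∃ f : List Bool → List (List ℕ) × List (List ℕ),
      PolyTime (fun x => bits (f x)) ∧ ∀ x, PathSystem (f x).1 (f x).2 ∧ Consistent (f x).2 ∧
        (x ∈ L ↔ ∃ S : ℕ → Prop, IsReduction (f x).1.length (f x).2 S)) ∧
    ((∃ F : List Bool → List Bool, PolyTime F ∧ ∀ A P : List (List ℕ), PathSystem A P →
        Consistent P → (F (bits (A, P)) = [true] ↔ Irreducible A.length P)) →
      ∀ L : Set (List Bool), InNP L → InP L) := by
  refine ⟨fun L hL => ?_, ?_⟩
  · obtain ⟨f, hf, hpr, hfL⟩ := hard L hL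
    exact ⟨f, PC.toPolyTime hf, fun x => ⟨(hpr x).1, (hpr x).2, hfL x⟩⟩
  · rintro ⟨F, hF, h⟩
    exact collapse hF h

end Pool.Agent.Results.MP_a08d7f_lc.IrreducibilityHard
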